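import Mathlib
import Pool.Agent.H10.RAlt

namespace Pool.Agent.Results.MP_c44da7_al.Alt

/-- The associator. -/
def as {A : Type} [NonUnitalNonAssocRing A] (x y z : A) : A := x * y * z - x * (y * z)

/-- Right alternative rings. -/
def RightAlt (A : Type) [NonUnitalNonAssocRing A] : Prop := ∀ x y : A, as x y y = 0

/-- The alternative center. -/
def Nalt (A : Type) [NonUnitalNonAssocRing A] : Set A :=
  {a | ∀ x y, as a x y = -as x a y ∧ -as x a y = as x y a}

theorem result (f : FreeNonUnitalNonAssocAlgebra ℤ ℕ)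
    (h : ∀ (A : Type) [NonUnitalNonAssocRing A], RightAlt A → ∀ a : ℕ → A,
      FreeNonUnitalNonAssocAlgebra.lift ℤ a f ∈ Nalt A)
    (A : Type) [NonUnitalNonAssocRing A] (hA : RightAlt A) (a : ℕ → A) :
    FreeNonUnitalNonAssocAlgebra.lift ℤ a f = 0 := by
  by_contra hn
  obtain ⟨x, y, h1, h2⟩ := H10.RAlt.key A _ hn
  have := h _ (fun u v => sub_eq_zero.2 (H10.RAlt.ralt A (fun x y => sub_eq_zero.1 (hA x y)) u v))
    (H10.RAlt.j A ∘ a) x y
  rw [H10.RAlt.lift_j] at this
  exact h1 ((this.1.trans this.2).symm.trans h2)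

end Pool.Agent.Results.MP_c44da7_al.Alt
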