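import Mathlib
import Pool.Agent.H10.RAlt

namespace Pool.Agent.Results.MP_c44da7_al.Right

/-- The associator. -/
def as {A : Type} [NonUnitalNonAssocRing A] (x y z : A) : A := x * y * z - x * (y * z)

/-- Right alternative rings. -/
def RightAlt (A : Type) [NonUnitalNonAssocRing A] : Prop := ∀ x y : A, as x y y = 0

/-- The right associative center. -/
def Nr (A : Type) [NonUnitalNonAssocRing A] : Set A := {n | ∀ x y, as x y n = 0}

theorem result (f : FreeNonUnitalNonAssocAlgebra ℤ ℕ)
    (h : ∀ (A : Type) [NonUnitalNonAssocRing A], RightAlt A → ∀ a : ℕ → A,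
      FreeNonUnitalNonAssocAlgebra.lift ℤ a f ∈ Nr A)
    (A : Type) [NonUnitalNonAssocRing A] (hA : RightAlt A) (a : ℕ → A) :
    FreeNonUnitalNonAssocAlgebra.lift ℤ a f = 0 := by
  by_contra hn
  obtain ⟨x, y, h1, -⟩ := H10.RAlt.key A _ hn
  have := h _ (fun u v => sub_eq_zero.2 (H10.RAlt.ralt A (fun x y => sub_eq_zero.1 (hA x y)) u v))
    (H10.RAlt.j A ∘ a) x y
  rw [H10.RAlt.lift_j] at this
  exact h1 this

end Pool.Agent.Results.MP_c44da7_al.Right
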